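import Pool.Agent.Q17.RR.Stm
import Pool.Agent.Q14.DM.ASM

/-! Job ASB of project RR (helper17): the sum over chains of `p`-subgroups of the base group. -/

set_option autoImplicit false

open scoped Classical

noncomputable section

namespace Pool.Agent.Q124.RR

open Pool.Agent.H254R3.IN hiding NN
open Pool.Agent.Y63.KR Pool.Agent.Q17.WR Pool.Agent.Q17.DC Pool.Agent.Q17.AM Pool.Agent.Q17.OS
open Pool.Agent.Q17.DM Pool.Agent.Q17.RR
open Pool.Agent.Q14.DM (cs_eq count_le card_all le_Bi le_Pw sum_sub ex)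

/-- The part of the sum over the subgroups of the base group. -/
theorem part_a (hADJ : S_ADJ) {r : ℕ} [Fact r.Prime] {G : Type} [Group G]
    [Finite G] [Fintype (Subgroup G)] [Fintype (Subgroup (Wc G r))]
    {ι : Type} [Fintype ι] (w : Subgroup G → ℤ)
    (F f : Subgroup (Wc G r) → ℤ) (F₁ f₁ : ι → Cy r → Subgroup G → ℤ)
    (hf : ∀ H, F H = ∑ K, if K ≤ H then f K else 0)
    (hf₁ : ∀ i ω H, F₁ i ω H = ∑ K, if K ≤ H then f₁ i ω K else 0)
    (hF : ∀ H : Cy r → Subgroup G, F (Pw H) = ∑ i, ∏ ω, F₁ i ω (H ω)) :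
    ∑ K : {K : Subgroup (Wc G r) // ∀ x ∈ K, x.right = 1},
      f K.1 * ∏ ω, w (Q17.DM.cmp ω K.1) =
      ∑ i, ∏ ω, ∑ K, f₁ i ω K * w K := by
  have hr : r.Prime := Fact.out
  have : NeZero r := ⟨hr.ne_zero⟩
  have hkey := (hADJ ℤ {K : Subgroup (Wc G r) // ∀ x ∈ K, x.right = 1}).2
    (Cy r → Subgroup G) (fun K ω => Q17.DM.cmp ω K.1)
    (fun y => ⟨Pw y, fun x hx => hx.1⟩)
    (fun K y => le_Pw K.1 K.2 y)
    (fun K => F K.1) (fun K => f K.1) (fun y => ∑ i, ∏ ω, f₁ i ω (y ω))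
    (by
      intro x
      rw [hf x.1, ← Finset.sum_filter, ← Finset.sum_filter]
      symm
      refine Finset.sum_bij (fun K _ => K.1) ?_ ?_ ?_ ?_
      · intro K hK
        rw [Finset.mem_filter] at hK ⊢
        exact ⟨Finset.mem_univ _, hK.2⟩
      · intro K _ K' _ h
        exact Subtype.ext h
      · intro K hK
        rw [Finset.mem_filter] at hK
        refine ⟨⟨K, fun y hy => x.2 y (hK.2 hy)⟩, ?_, rfl⟩
        rw [Finset.mem_filter]
        exact ⟨Finset.mem_univ _, hK.2⟩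
      · intro K _
        rfl)
    (by
      intro y
      rw [hF y]
      have h0 : ∀ y' : Cy r → Subgroup G, (if y' ≤ y then ∑ i, ∏ ω, f₁ i ω (y' ω) else 0) =
          ∑ i, if y' ≤ y then ∏ ω, f₁ i ω (y' ω) else 0 := by
        intro y'
        by_cases h : y' ≤ y
        · simp only [if_pos h]
        · simp only [if_neg h, Finset.sum_const_zero]
      simp only [h0]
      rw [Finset.sum_comm]
      refine Finset.sum_congr rfl fun i _ => ?_
      have h1 : ∀ ω, F₁ i ω (y ω) = ∑ K, if K ≤ y ω then f₁ i ω K else 0 := fun ω => hf₁ _ _ _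
      simp only [h1]
      rw [Finset.prod_univ_sum, Fintype.piFinset_univ]
      refine Finset.sum_congr rfl fun k _ => ?_
      by_cases h : k ≤ y
      · rw [if_pos h]
        exact Finset.prod_congr rfl fun ω _ => if_pos (h ω)
      · rw [if_neg h]
        rw [Pi.le_def, not_forall] at h
        obtain ⟨ω, hω⟩ := h
        exact Finset.prod_eq_zero (Finset.mem_univ ω) (if_neg hω))
    (fun y => ∏ ω, w (y ω))
  refine hkey.trans ?_
  have h2 : ∀ y : Cy r → Subgroup G, (∑ i, ∏ ω, f₁ i ω (y ω)) * ∏ ω, w (y ω) =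
      ∑ i, ∏ ω, f₁ i ω (y ω) * w (y ω) := by
    intro y
    rw [Finset.sum_mul]
    exact Finset.sum_congr rfl fun i _ => (Finset.prod_mul_distrib).symm
  simp only [h2]
  rw [Finset.sum_comm]
  refine Finset.sum_congr rfl fun i _ => ?_
  rw [Finset.prod_univ_sum, Fintype.piFinset_univ]

/-- The sum over the subgroups which are not contained in the base group. -/
theorem part_b {r : ℕ} [Fact r.Prime] {G : Type} [Group G]
    [Finite G] [Fintype (Subgroup G)] [Fintype (Subgroup (Wc G r))]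
    (F f : Subgroup (Wc G r) → ℤ) (Φ : Subgroup G → ℤ)
    (hf : ∀ H, F H = ∑ K, if K ≤ H then f K else 0)
    (hΦ : ∀ (L : Subgroup G) (m : Cy r → G),
      F (Lw m L) - F (Bi (Lw m L)) = ((Nat.card L : ℤ) ^ (r - 1)) * Φ L) (L : Subgroup G) :
    ((Nat.card G : ℤ) ^ (r - 1)) * Φ L =
      ∑ K : {K : Subgroup (Wc G r) // ∃ x ∈ K, x.right ≠ 1},
        if Q17.DM.cmp 1 K.1 ≤ L then f K.1 else 0 := by
  have hr : r.Prime := Fact.out
  have : NeZero r := ⟨hr.ne_zero⟩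
  let _ : Fintype ({ω : Cy r // ω ≠ 1} → G) := Fintype.ofFinite _
  have h1 : ∀ m : {ω : Cy r // ω ≠ 1} → G, F (Lw (ex m) L) - F (Bi (Lw (ex m) L)) =
      ∑ K : {K : Subgroup (Wc G r) // ∃ x ∈ K, x.right ≠ 1},
        if K.1 ≤ Lw (ex m) L then f K.1 else 0 := by
    intro m
    rw [hf, hf, ← Finset.sum_sub_distrib,
      sum_sub (fun K : Subgroup (Wc G r) => ∃ x ∈ K, x.right ≠ 1)
        (fun K => if K ≤ Lw (ex m) L then f K else 0)]
    refine Finset.sum_congr rfl fun K _ => ?_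
    by_cases hK : ∃ x ∈ K, x.right ≠ 1
    · rw [if_pos hK, if_neg (c := K ≤ Bi (Lw (ex m) L)), sub_zero]
      intro h
      obtain ⟨x, hx, hx1⟩ := hK
      exact hx1 (((le_Bi _ _).1 h).2 x hx)
    · rw [if_neg hK]
      have hK' : ∀ x ∈ K, x.right = 1 := by
        intro x hx
        by_contra h
        exact hK ⟨x, hx, h⟩
      by_cases h : K ≤ Lw (ex m) L
      · rw [if_pos h, if_pos ((le_Bi _ _).2 ⟨h, hK'⟩), sub_self]
      · rw [if_neg h, if_neg (fun h' => h ((le_Bi _ _).1 h').1), sub_self]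
  have h2 : ∑ m : {ω : Cy r // ω ≠ 1} → G, (F (Lw (ex m) L) - F (Bi (Lw (ex m) L))) =
      (Nat.card L : ℤ) ^ (r - 1) * (((Nat.card G : ℤ) ^ (r - 1)) * Φ L) := by
    simp only [hΦ]
    rw [Finset.sum_const, Finset.card_univ, ← Nat.card_eq_fintype_card, card_all,
      nsmul_eq_mul]
    push_cast
    ring
  have h3 : ∑ m : {ω : Cy r // ω ≠ 1} → G, (F (Lw (ex m) L) - F (Bi (Lw (ex m) L))) =
      (Nat.card L : ℤ) ^ (r - 1) * ∑ K : {K : Subgroup (Wc G r) // ∃ x ∈ K, x.right ≠ 1},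
        if Q17.DM.cmp 1 K.1 ≤ L then f K.1 else 0 := by
    simp only [h1]
    rw [Finset.sum_comm, Finset.mul_sum]
    refine Finset.sum_congr rfl fun K _ => ?_
    rw [← Finset.sum_filter, Finset.sum_const]
    have h4 : (Finset.univ.filter fun m : {ω : Cy r // ω ≠ 1} → G =>
        K.1 ≤ Lw (ex m) L).card = if Q17.DM.cmp 1 K.1 ≤ L then (Nat.card L) ^ (r - 1) else 0 := by
      rw [← count_le K.1 K.2 L, Nat.card_eq_fintype_card, Fintype.card_subtype]
    rw [h4]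
    split_ifs
    · rw [nsmul_eq_mul]
      push_cast
      ring
    · rw [zero_smul, mul_zero]
  have h5 : (Nat.card L : ℤ) ^ (r - 1) ≠ 0 :=
    pow_ne_zero _ (Int.natCast_ne_zero.2 Nat.card_pos.ne')
  exact mul_left_cancel₀ h5 (h2.symm.trans h3)

theorem cs_mul {p : ℕ} {Γ : Type} [Group Γ] [Finite Γ] (n : ℤ)
    (F : Subgroup Γ → ℤ) : CS p ⊤ ⊥ (fun L => n * F L) = n * CS p ⊤ ⊥ F := by
  let _ : Fintype {σ : Set (Subgroup Γ) // Ch p (⊤ : Subgroup Γ) ⊥ σ} := Fintype.ofFinite _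
  unfold CS
  simp only [finsum_eq_sum_of_fintype]
  rw [Finset.mul_sum]
  refine Finset.sum_congr rfl fun σ _ => ?_
  ring

/-- Job ASB: the sum over chains in the base group. -/
theorem t_ASB : S_ADJ → S_WZB1 → S_WZB2 → S_ASB := by
  intro hADJ hM hN p r _ _ G _ _ ι _ F F₁ Φ hF hΦ
  have hr : r.Prime := Fact.out
  have : NeZero r := ⟨hr.ne_zero⟩
  let _ : Fintype (Subgroup G) := Fintype.ofFinite _
  have hfW : Finite (Wc G r) := Finite.of_equiv _ SemidirectProduct.equivProd.symm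
  let _ : Fintype (Subgroup (Wc G r)) := Fintype.ofFinite _
  obtain ⟨f, hf⟩ := (hADJ ℤ (Subgroup (Wc G r))).1 F
  have hex : ∀ i ω, ∃ f₁ : Subgroup G → ℤ, ∀ H, F₁ i ω H = ∑ K, if K ≤ H then f₁ K else 0 :=
    fun i ω => (hADJ ℤ (Subgroup G)).1 (F₁ i ω)
  choose f₁ hf₁ using hex
  have hcF : CS p (Bs G (Cy r) (Cy r)) ⊥ F =
      ∑ K, f K * WZ p (Bs G (Cy r) (Cy r)) ⊥ K := by
    have h := cs_eq (p := p) (Bs G (Cy r) (Cy r)) ⊥ F f hf
    simpa only [Int.cast_id] using h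
  have hc1 : ∀ i ω, CS p ⊤ ⊥ (F₁ i ω) = ∑ K, f₁ i ω K * WZ p ⊤ ⊥ K := by
    intro i ω
    have h := cs_eq (p := p) ⊤ ⊥ (F₁ i ω) (f₁ i ω) (hf₁ i ω)
    simpa only [Int.cast_id] using h
  simp only [hc1]
  rw [hcF, ← part_a hADJ (fun K => WZ p ⊤ ⊥ K) F f F₁ f₁ hf hf₁ hF]
  have hb := part_b F f Φ hf hΦ
  let T : Subgroup G → ℤ := fun L =>
    ∑ K : {K : Subgroup (Wc G r) // ∃ x ∈ K, x.right ≠ 1}, if Q17.DM.cmp 1 K.1 = L then f K.1
      else 0
  have hT : ∀ L, (fun L => ((Nat.card G : ℤ) ^ (r - 1)) * Φ L) L = ∑ L', if L' ≤ L then T L'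
      else 0 := by
    intro L
    change ((Nat.card G : ℤ) ^ (r - 1)) * Φ L = _
    rw [hb L]
    have h1 : ∀ L', (if L' ≤ L then T L' else 0) =
        ∑ K : {K : Subgroup (Wc G r) // ∃ x ∈ K, x.right ≠ 1},
          if Q17.DM.cmp 1 K.1 = L' then (if L' ≤ L then f K.1 else 0) else 0 := by
      intro L'
      by_cases h : L' ≤ L
      · simp only [if_pos h]
        rfl
      · simp only [if_neg h, ite_self, Finset.sum_const_zero]
    simp only [h1]
    rw [Finset.sum_comm]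
    refine Finset.sum_congr rfl fun K _ => ?_
    rw [Finset.sum_ite_eq, if_pos (Finset.mem_univ _)]
  have hcs := cs_eq (p := p) ⊤ ⊥ (fun L => ((Nat.card G : ℤ) ^ (r - 1)) * Φ L) T hT
  rw [cs_mul] at hcs
  simp only [Int.cast_id] at hcs
  rw [hcs]
  have hsplit : ∑ K, f K * WZ p (Bs G (Cy r) (Cy r)) ⊥ K =
      (∑ K : {K : Subgroup (Wc G r) // ∀ x ∈ K, x.right = 1},
        f K.1 * WZ p (Bs G (Cy r) (Cy r)) ⊥ K.1) +
      ∑ K : {K : Subgroup (Wc G r) // ∃ x ∈ K, x.right ≠ 1},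
        f K.1 * WZ p (Bs G (Cy r) (Cy r)) ⊥ K.1 := by
    rw [sum_sub (fun K : Subgroup (Wc G r) => ∀ x ∈ K, x.right = 1)
        (fun K => f K * WZ p (Bs G (Cy r) (Cy r)) ⊥ K),
      sum_sub (fun K : Subgroup (Wc G r) => ∃ x ∈ K, x.right ≠ 1)
        (fun K => f K * WZ p (Bs G (Cy r) (Cy r)) ⊥ K), ← Finset.sum_add_distrib]
    refine Finset.sum_congr rfl fun K _ => ?_
    by_cases h : ∀ x ∈ K, x.right = 1
    · rw [if_pos h, if_neg, add_zero]
      rintro ⟨x, hx, hx1⟩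
      exact hx1 (h x hx)
    · rw [if_neg h, if_pos, zero_add]
      by_contra h'
      apply h
      intro x hx
      by_contra h''
      exact h' ⟨x, hx, h''⟩
  rw [hsplit]
  refine congrArg₂ (· + ·) ?_ ?_
  · refine Finset.sum_congr rfl fun K _ => ?_
    rw [hM p r G K.1 K.2]
  · have h1 : ∀ L, T L * WZ p ⊤ ⊥ L =
        ∑ K : {K : Subgroup (Wc G r) // ∃ x ∈ K, x.right ≠ 1},
          if Q17.DM.cmp 1 K.1 = L then f K.1 * WZ p ⊤ ⊥ L else 0 := by
      intro L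
      rw [Finset.sum_mul]
      refine Finset.sum_congr rfl fun K _ => ?_
      rw [ite_mul, zero_mul]
    simp only [h1]
    rw [Finset.sum_comm]
    refine Finset.sum_congr rfl fun K _ => ?_
    rw [Finset.sum_ite_eq, if_pos (Finset.mem_univ _), hN p r G K.1 K.2]

end Pool.Agent.Q124.RR
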