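import Pool.Agent.Q17.RR.Stm
import Pool.Agent.Q92.DM.WZM

/-! Job WZB1 of project RR (helper17): the alternating sums for the `p`-subgroups of the base group. -/

set_option autoImplicit false

open scoped Classical

noncomputable section

namespace Pool.Agent.Q124.RR

open Pool.Agent.H254R3.IN hiding NN
open Pool.Agent.Y63.KR Pool.Agent.Q17.WR Pool.Agent.Q17.DC Pool.Agent.Q17.AM Pool.Agent.Q17.OS
open Pool.Agent.Q17.DM Pool.Agent.Q17.RR Pool.Agent.Q18.KRX Pool.Agent.Q224.OS Pool.Agent.Q92.DM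

theorem right_of_le {G : Type} [Group G] {r : ℕ} [Fact r.Prime] {P : Subgroup (Wc G r)}
    (h : P ≤ Bs G (Cy r) (Cy r)) : ∀ x ∈ P, x.right = 1 := fun _ hx => h hx

theorem Pw_le_Bs {G : Type} [Group G] {r : ℕ} [Fact r.Prime] (Q : Cy r → Subgroup G) :
    Pw Q ≤ Bs G (Cy r) (Cy r) := fun _ hx => hx.1

/-- The alternating sums for subgroups of the base group. -/
theorem t_WZB1 : S_WZB1 := by
  intro p r hp hr G _ _ K hK
  have : NeZero r := ⟨hr.out.ne_zero⟩
  have : Finite (Cy r) := inferInstanceAs (Finite (ZMod r))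
  have hfin : Finite (Wc G r) := inferInstance
  simp only [WZ_eq]
  rw [← Pool.Agent.Q177.WR.t_PRD (Cy r) (fun _ => Subgroup G)
    (fun ω => GZ p ⊤ ⊥ (cmp ω K)) (fun ω => mem_GZ.2 ⟨IsPGroup.of_bot, bot_le, le_rfl, by
      rw [Subgroup.normalizer_eq_top]; exact le_top⟩)]
  rw [E_retract_up (fun P => Pw (fun ω => cmp ω P))]
  · rw [← E_image _ (fun Q : Cy r → Subgroup G => Pw Q) (fun Q _ Q' _ => Pw_le_iff)]
    congr 1
    ext P
    simp only [Finset.mem_filter, Finset.mem_image, Finset.mem_erase, Fintype.mem_piFinset]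
    constructor
    · rintro ⟨⟨a, b⟩, c⟩
      obtain ⟨b1, b2, -, b4⟩ := mem_GZ.1 b
      refine ⟨fun ω => cmp ω P, ⟨?_, fun ω => mem_GZ.2 ⟨isPGroup_cmp b1 ω, le_top, bot_le,
        norm_cmp b4 ω⟩⟩, c⟩
      intro h
      apply a
      rw [← c, h]
      exact Pw_bot
    · rintro ⟨Q, ⟨a, b⟩, rfl⟩
      have b' := fun ω => mem_GZ.1 (b ω)
      refine ⟨⟨?_, mem_GZ.2 ⟨isPGroup_Pw fun ω => (b' ω).1, Pw_le_Bs _, bot_le,
        (le_norm_Pw_iff hK Q).2 fun ω => (b' ω).2.2.2⟩⟩, ?_⟩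
      · intro h
        apply a
        funext ω
        have h2 := congrArg (cmp ω) h
        rw [cmp_Pw] at h2
        rw [h2, ← Pw_bot, cmp_Pw]
        rfl
      · simp only [cmp_Pw]
  · intro P hP
    obtain ⟨a, b⟩ := Finset.mem_erase.1 hP
    obtain ⟨b1, b2, -, b4⟩ := mem_GZ.1 b
    have b0 := right_of_le b2
    refine Finset.mem_erase.2 ⟨?_, mem_GZ.2 ⟨isPGroup_Pw (isPGroup_cmp b1), Pw_le_Bs _, bot_le,
      (le_norm_Pw_iff hK _).2 (norm_cmp b4)⟩⟩
    intro h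
    apply a
    rw [eq_bot_iff, ← h]
    exact le_Pw_cmp b0
  · intro P hP
    exact le_Pw_cmp (right_of_le (mem_GZ.1 (Finset.mem_erase.1 hP).2).2.1)
  · intro P _
    simp only [cmp_Pw]
  · intro P _ Q _ h
    exact Pw_mono (cmp_mono h)

end Pool.Agent.Q124.RR
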