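import Pool.Agent.Q17.RR.Stm
import Pool.Agent.Q151.DM.WZN

/-! Job WZB2 of project RR (helper17): the alternating sums of the `p`-subgroups of the base group for the
subgroups which are not contained in the base group. -/

set_option autoImplicit false

open scoped Classical

noncomputable section

namespace Pool.Agent.Q124.RR

open Pool.Agent.H254R3.IN hiding NN
open Pool.Agent.Y63.KR Pool.Agent.Q17.WR Pool.Agent.Q17.AM Pool.Agent.Q17.OS Pool.Agent.Q17.DM
open Pool.Agent.Q17.RR Pool.Agent.Q151.DM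
open Pool.Agent.Q18.KRX (E E_image)
open Pool.Agent.Q224.OS (GZ mem_GZ WZ_eq E_retract_up)

/-- The alternating sums for the other subgroups. -/
theorem t_WZB2 : S_WZB2 := by
  intro p r _ _ G _ _ K hK
  obtain ⟨x₀, hx₀, hx₀'⟩ := hK
  -- the elements `x_ω`
  have hex : ∀ ω : Cy r, ∃ x ∈ K, x.right = ω := by
    intro ω
    have hcard : Nat.card (Cy r) = r := by
      rw [Nat.card_congr (Multiplicative.toAdd : Cy r ≃ ZMod r), Nat.card_zmod]
    have h1 : ω ∈ Subgroup.zpowers x₀.right := by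
      rw [zpowers_eq_top_of_prime_card hcard hx₀']
      exact Subgroup.mem_top _
    obtain ⟨n, hn⟩ := h1
    refine ⟨x₀ ^ n, K.zpow_mem hx₀ n, ?_⟩
    have h2 := map_zpow (SemidirectProduct.rightHom : Wc G r →* Cy r) x₀ n
    exact h2.trans hn
  choose xx hxK hxr using hex
  obtain ⟨f, hf⟩ : ∃ f : Subgroup G → Subgroup (Wc G r),
      ∀ Q, f Q = Pw (fun ω => cjg ((xx ω).left ω) Q) := ⟨_, fun _ => rfl⟩
  have hfle : ∀ Q Q', f Q ≤ f Q' ↔ Q ≤ Q' := by
    intro Q Q'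
    rw [hf, hf, Pw_le]
    constructor
    · intro h
      exact cjg_le.mp (h 1)
    · intro h ω
      exact cjg_le.mpr h
  have hfB : ∀ Q, f Q ≤ Bs G (Cy r) (Cy r) := by
    intro Q
    rw [hf]
    exact fun _ hx => hx.1
  have hfbot : f ⊥ = ⊥ := by
    rw [hf, eq_bot_iff]
    rintro x ⟨h1, h2⟩
    rw [Subgroup.mem_bot]
    refine SemidirectProduct.ext ?_ h1
    funext ω
    have h3 : x.left ω ∈ cjg ((xx ω).left ω) ⊥ := h2 ω
    rw [cjg_bot, Subgroup.mem_bot] at h3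
    rw [h3]
    rfl
  -- elements of `K`
  have hz : ∀ k ∈ K, ∀ ω : Cy r, ((xx ω).left ω)⁻¹ * k.left ω *
      (xx (k.right⁻¹ * ω)).left (k.right⁻¹ * ω) ∈ Q17.DM.cmp 1 K := by
    intro k hk ω
    refine ⟨(xx ω)⁻¹ * (k * xx (k.right⁻¹ * ω)),
      K.mul_mem (K.inv_mem (hxK ω)) (K.mul_mem hk (hxK _)), ?_, ?_⟩
    · rw [SemidirectProduct.mul_right, SemidirectProduct.mul_right, SemidirectProduct.inv_right,
        hxr, hxr]
      group
    · rw [lft_mul, lft_inv, lft_mul, SemidirectProduct.inv_right, hxr, inv_inv, mul_one,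
        mul_assoc]
  have := Pool.Agent.Q151.AM.finite_wc G r
  rw [WZ_eq, WZ_eq, E_retract_up hul]
  · rw [← E_image ((GZ p ⊤ ⊥ (Q17.DM.cmp 1 K)).erase ⊥) f (fun Q _ Q' _ => hfle Q Q')]
    congr 1
    ext P
    simp only [Finset.mem_filter, Finset.mem_image, Finset.mem_erase]
    constructor
    · rintro ⟨⟨a, b⟩, c⟩
      obtain ⟨b1, b2, -, b4⟩ := mem_GZ.1 b
      have hcmp : ∀ ω, Q17.DM.cmp ω P = cjg ((xx ω).left ω) (Q17.DM.cmp 1 P) := by
        intro ω
        ext g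
        rw [mem_cjg]
        constructor
        · rintro ⟨y, hy, h1, rfl⟩
          refine ⟨((xx ω)⁻¹ * y * (xx ω)⁻¹⁻¹).left 1,
            ⟨_, norm_mem b4 (K.inv_mem (hxK ω)) hy, rgt_cj _ y h1, rfl⟩, ?_⟩
          rw [lft_cj _ y h1, lft_inv, SemidirectProduct.inv_right, hxr, inv_inv, mul_one]
          group
        · rintro ⟨q, ⟨y, hy, h1, rfl⟩, rfl⟩
          refine ⟨xx ω * y * (xx ω)⁻¹, norm_mem b4 (hxK ω) hy, rgt_cj _ y h1, ?_⟩
          rw [lft_cj _ y h1, hxr, inv_mul_cancel]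
      have hfP : f (Q17.DM.cmp 1 P) = P := by
        rw [hf]
        nth_rw 2 [← c]
        unfold hul
        congr 1
        funext ω
        exact (hcmp ω).symm
      refine ⟨Q17.DM.cmp 1 P, ⟨?_, mem_GZ.2 ⟨pg_cmp b1 1, le_top, bot_le, norm_of ?_⟩⟩, hfP⟩
      · intro h
        apply a
        rw [← hfP, h, hfbot]
      · rintro _ ⟨k, hk, hk1, rfl⟩ _ ⟨y, hy, h1, rfl⟩
        refine ⟨k * y * k⁻¹, norm_mem b4 hk hy, rgt_cj k y h1, ?_⟩
        rw [lft_cj k y h1, hk1, inv_one, one_mul]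
    · rintro ⟨Q, ⟨a, b⟩, rfl⟩
      obtain ⟨b1, -, -, b4⟩ := mem_GZ.1 b
      refine ⟨⟨?_, mem_GZ.2 ⟨?_, hfB Q, bot_le, norm_of ?_⟩⟩, ?_⟩
      · intro h
        apply a
        rw [eq_bot_iff, ← hfle, h]
        exact bot_le
      · rw [hf]
        exact pg_Pw fun ω => b1.map _
      · intro k hk x hx
        rw [hf] at hx ⊢
        refine ⟨rgt_cj k x hx.1, fun ω => ?_⟩
        obtain ⟨q, hq, h1⟩ := mem_cjg.1 (hx.2 (k.right⁻¹ * ω))
        have h2 := norm_mem b4 (hz k hk ω) hq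
        refine mem_cjg.2 ⟨_, h2, ?_⟩
        rw [lft_cj k x hx.1, ← h1]
        group
      · rw [hf]
        exact hul_Pw _
  · intro P hP
    obtain ⟨a, b⟩ := Finset.mem_erase.1 hP
    obtain ⟨b1, b2, -, b4⟩ := mem_GZ.1 b
    have h1 : P ≤ hul P := le_hul fun x hx => b2 hx
    refine Finset.mem_erase.2 ⟨?_, mem_GZ.2 ⟨pg_Pw fun ω => pg_cmp b1 ω, fun _ hx => hx.1, bot_le,
      norm_hul b4⟩⟩
    intro h
    apply a
    rw [eq_bot_iff, ← h]
    exact h1
  · intro P hP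
    obtain ⟨-, b2, -⟩ := mem_GZ.1 (Finset.mem_erase.1 hP).2
    exact le_hul fun x hx => b2 hx
  · intro P _
    exact hul_Pw _
  · intro P _ Q _ h
    exact hul_mono h

end Pool.Agent.Q124.RR
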